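import Pool.Agent.Helper71.E5.WStmts3
import Pool.Agent.Helper49.E5.TRI
import Pool.Agent.Helper49.E5.EV

/-!
MP_efd95c_co, wheels: row KXE (end kink `a` with unstressed slack spoke, `xb` slack).
-/

set_option autoImplicit false

open Real

namespace E5

/-- the pure trigonometric core -/
theorem kxe_pure {db d al xi xq eta Ta Tc c : ℝ} (hdb0 : 0 ≤ db) (hd0 : 0 ≤ d) (hdal : d < al)
    (hal : al ≤ π / 2) (hd : d < π / 2) (hdbal : db ≤ al) (hTa : 0 ≤ Ta) (hTc : 0 ≤ Tc)
    (hxq0 : 0 ≤ xq) (hxqe : xq < eta) (hxq : xq ≤ xi) (hxa : xi + al ≤ π) (h1 : db < π - eta)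
    (h2 : π - eta < π / 2) (hc0 : 0 < c) (hc1 : c < 1)
    (E2 : c * (sin xi - Tc * cos xi) = sin (al - d) / cos d)
    (EQ : 1 + cos eta / cos db = (cos (al + eta) + tan d * sin (al + eta)) +
      c * (cos (xi - eta) + Tc * sin (xi - eta)) +
      (1 - c) * (cos (eta - xq) - Ta * sin (eta - xq))) : False := by
  have hpi := Real.pi_pos
  have hcd : 0 < cos d := Real.cos_pos_of_mem_Ioo ⟨by linarith, hd⟩
  have hcdb : 0 < cos db := Real.cos_pos_of_mem_Ioo ⟨by linarith, by linarith⟩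
  have e2 : cos ((π - eta) - (al - d)) / cos d
      = - (cos (al + eta) + tan d * sin (al + eta)) := by
    have : (π - eta) - (al - d) = π - ((al + eta) - d) := by ring
    rw [this, Real.cos_pi_sub, Real.cos_sub, Real.tan_eq_sin_div_cos]
    field_simp
  have e1 : cos (π - eta) / cos db = - (cos eta / cos db) := by
    rw [Real.cos_pi_sub]; ring
  -- bounds for the `a`-term
  have hsa : 0 ≤ sin (eta - xq) :=
    Real.sin_nonneg_of_nonneg_of_le_pi (by linarith) (by linarith)
  have hTs : 0 ≤ Ta * sin (eta - xq) := mul_nonneg hTa hsa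
  rcases lt_or_ge xi eta with hlt | hge
  · -- first case
    have hp := H49E5.ev_pos (db := db) (d := d) (al := al) (xi := xi) (eta := eta) (Tj := 0)
      hdb0 hd0 hdal.le hal hd hdbal le_rfl (by linarith) hlt hxa h1 h2
    rw [e2, e1] at hp
    have h3 : cos (eta - xq) ≤ cos (eta - xi) :=
      Real.cos_le_cos_of_nonneg_of_le_pi (by linarith) (by linarith) (by linarith)
    have h4 : 0 ≤ sin (eta - xi) :=
      Real.sin_nonneg_of_nonneg_of_le_pi (by linarith) (by linarith)
    have h5 : cos (xi - eta) = cos (eta - xi) := by rw [← Real.cos_neg]; congr 1; ring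
    have h6 : sin (xi - eta) = - sin (eta - xi) := by rw [← Real.sin_neg]; congr 1; ring
    rw [h5, h6] at EQ
    have h7 : 0 ≤ Tc * sin (eta - xi) := mul_nonneg hTc h4
    have h8 : (1 - c) * (cos (eta - xq) - Ta * sin (eta - xq)) ≤ (1 - c) * cos (eta - xi) :=
      mul_le_mul_of_nonneg_left (by linarith) (by linarith)
    have h9 : c * (cos (eta - xi) + Tc * -sin (eta - xi)) ≤ c * cos (eta - xi) :=
      mul_le_mul_of_nonneg_left (by linarith) hc0.le
    nlinarith
  · -- second case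
    set h := π - eta with hh
    set u := al - d with hu
    set k := π - xi with hk
    have hkh : k ≤ h := by linarith
    have hak : al ≤ k := by linarith
    have hk0 : 0 < k := by linarith
    have hk2 : k < π / 2 := by linarith
    have hck : 0 < cos k := Real.cos_pos_of_mem_Ioo ⟨by linarith, hk2⟩
    have hcal : 0 < cos al := Real.cos_pos_of_mem_Ioo ⟨by linarith, by linarith⟩
    have hch : 0 < cos h := Real.cos_pos_of_mem_Ioo ⟨by linarith, h2⟩
    have f1 : sin xi = sin k := by rw [hk, Real.sin_pi_sub]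
    have f2 : cos xi = - cos k := by rw [hk, Real.cos_pi_sub]; ring
    have f3 : xi - eta = h - k := by rw [hh, hk]; ring
    rw [f1, f2] at E2
    rw [f3] at EQ
    -- the two identities
    have g1 : cos h = cos (h - k) * cos k - sin (h - k) * sin k := by
      rw [← Real.cos_add]; congr 1; ring
    have g2 : cos (h - u) * cos k - sin (h - k) * sin u = cos h * cos (k - u) := by
      have a1 : cos (h - u) = cos (h - k) * cos (k - u) - sin (h - k) * sin (k - u) := by
        rw [← Real.cos_add]; congr 1; ring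
      have a2 : sin u = sin k * cos (k - u) - cos k * sin (k - u) := by
        rw [← Real.sin_sub]; congr 1; ring
      rw [a1, a2, g1]; ring
    have g3 : c * (cos (h - k) + Tc * sin (h - k)) =
        c * (cos h / cos k) + sin u * sin (h - k) / (cos d * cos k) := by
      have b1 : cos (h - k) = (cos h + sin (h - k) * sin k) / cos k := by
        rw [eq_div_iff hck.ne', g1]; ring
      have b2 : c * (cos (h - k) + Tc * sin (h - k)) =
          c * (cos h / cos k) + (c * (sin k - Tc * -cos k)) * (sin (h - k) / cos k) := by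
        rw [b1]; field_simp; ring
      rw [b2, E2]
      field_simp
    have g4 : cos (h - u) / cos d - sin u * sin (h - k) / (cos d * cos k) =
        cos h * (cos (k - u) / (cos d * cos k)) := by
      have : cos h * (cos (k - u) / (cos d * cos k)) =
          (cos h * cos (k - u)) / (cos d * cos k) := by ring
      rw [this, ← g2]
      field_simp
    -- inequalities
    have i1 : cos h / cos k ≤ 1 := by
      rw [div_le_one hck]
      exact Real.cos_le_cos_of_nonneg_of_le_pi hk0.le (by linarith) hkh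
    have hsu : 0 ≤ sin u := Real.sin_nonneg_of_nonneg_of_le_pi (by linarith) (by linarith)
    have i2 : cos d * cos k ≤ cos al * cos (k - u) := by
      have a0 : 0 ≤ sin (k - al) :=
        Real.sin_nonneg_of_nonneg_of_le_pi (by linarith) (by linarith)
      rw [Real.sin_sub] at a0
      have a1 : cos d = cos al * cos u + sin al * sin u := by
        rw [← Real.cos_sub]; congr 1; rw [hu]; ring
      have a2 : cos (k - u) = cos k * cos u + sin k * sin u := Real.cos_sub k u
      rw [a1, a2]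
      have a3 : cos al * (cos k * cos u + sin k * sin u) -
          (cos al * cos u + sin al * sin u) * cos k =
          (sin k * cos al - cos k * sin al) * sin u := by ring
      have a4 := mul_nonneg a0 hsu
      linarith
    have i3 : cos al ≤ cos db := Real.cos_le_cos_of_nonneg_of_le_pi hdb0 (by linarith) hdbal
    have hcku : 0 ≤ cos (k - u) :=
      Real.cos_nonneg_of_mem_Icc ⟨by linarith, by linarith⟩
    have i4 : 1 / cos db ≤ cos (k - u) / (cos d * cos k) := by
      rw [div_le_div_iff₀ hcdb (mul_pos hcd hck)]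
      have := mul_le_mul_of_nonneg_right i3 hcku
      linarith
    have i5 : cos h / cos db ≤ cos h * (cos (k - u) / (cos d * cos k)) := by
      have := mul_le_mul_of_nonneg_left i4 hch.le
      calc cos h / cos db = cos h * (1 / cos db) := by ring
        _ ≤ _ := this
    have i6 : cos (eta - xq) < 1 := by
      have := Real.cos_lt_cos_of_nonneg_of_le_pi (le_refl 0) (by linarith : eta - xq ≤ π)
        (by linarith)
      simpa using this
    have i7 : (1 - c) * (cos (eta - xq) - Ta * sin (eta - xq)) < (1 - c) * 1 :=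
      mul_lt_mul_of_pos_left (by linarith) (by linarith)
    have i8 : c * (cos h / cos k) ≤ c * 1 := mul_le_mul_of_nonneg_left i1 hc0.le
    rw [g3] at EQ
    have e1' : cos eta / cos db = - (cos h / cos db) := by
      rw [hh, Real.cos_pi_sub]; ring
    rw [e1'] at EQ
    linarith

/-! ### triangles -/

theorem kxe_chs (r s θ : ℝ) : ch r s θ = ch s r θ := by
  unfold ch; congr 1; ring

theorem kxe_hds (r s θ : ℝ) : hd r s θ = hd s r θ := by
  unfold hd; rw [kxe_chs]

theorem kxe_omcs (r s θ : ℝ) : omc r s θ = omc s r θ := by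
  unfold omc; rw [kxe_chs]

theorem kxe_omc {r s θ : ℝ} (hr : 0 < r) (hs : 0 < s) (h0 : 0 < θ) (h1 : θ < π)
    (hc : ch r s θ < 2) :
    omc r s θ * (r - s * cos θ) = cos (UU r s θ) + TT r s θ * sin (UU r s θ) ∧
    omc r s θ * (s * sin θ) = sin (UU r s θ) - TT r s θ * cos (UU r s θ) := by
  obtain ⟨c0, c1, c2, c3, c4, c5, c6, c7, c8, c9, c10, c11⟩ := TRI r s θ hr hs h0 h1 hc
  have hpi := Real.pi_pos
  have hcd : 0 < cos (hd r s θ) := Real.cos_pos_of_mem_Ioo ⟨by linarith, c3⟩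
  have hsq : Real.sqrt (4 - ch r s θ ^ 2) = 2 * cos (hd r s θ) := by
    have : 4 - ch r s θ ^ 2 = (2 * cos (hd r s θ)) ^ 2 := by
      have := Real.sin_sq_add_cos_sq (hd r s θ)
      rw [c1]; linarith
    rw [this, Real.sqrt_sq (by linarith)]
  have ho : omc r s θ = 1 / (ch r s θ * cos (hd r s θ)) := by
    unfold omc
    rw [hsq]
    field_simp
  rw [← c10, ← c11, ho, c6, c7]
  constructor <;> field_simp

theorem kxe_tau {r s θ : ℝ} (hr : 0 < r) (hs : 0 < s) (h0 : 0 < θ) (h1 : θ < π)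
    (hc : ch r s θ < 2) :
    sin (UU r s θ) - TT r s θ * cos (UU r s θ) = sin (UU r s θ - hd r s θ) / cos (hd r s θ) ∧
    0 < sin (UU r s θ) - TT r s θ * cos (UU r s θ) ∧ 0 < TT r s θ := by
  obtain ⟨c0, c1, c2, c3, c4, c5, c6, c7, c8, c9, c10, c11⟩ := TRI r s θ hr hs h0 h1 hc
  have hpi := Real.pi_pos
  have hcd : 0 < cos (hd r s θ) := Real.cos_pos_of_mem_Ioo ⟨by linarith, c3⟩
  have hsu : 0 < sin (un r s θ) := Real.sin_pos_of_pos_of_lt_pi c4 c5
  have hU : UU r s θ - hd r s θ = un r s θ := by unfold UU; ring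
  refine ⟨?_, ?_, ?_⟩
  · rw [hU, c10]
  · rw [← c10]; exact div_pos hsu hcd
  · exact Real.tan_pos_of_pos_of_lt_pi_div_two c2 c3

theorem kxe_e_re (t : ℝ) : (AX.e t).re = cos t := by
  simp [AX.e, Complex.exp_re]

theorem kxe_e_im (t : ℝ) : (AX.e t).im = sin t := by
  simp [AX.e, Complex.exp_im]

/-- law of cosines for two adjacent triangles at the vertex of radius `rx` -/
theorem kxe_two {rx ry rb t2 t3 c3 c4 u3 u4 : ℝ} (a1 : rx - ry * cos t2 = c3 * cos u3)
    (a2 : ry * sin t2 = c3 * sin u3) (a3 : rx - rb * cos t3 = c4 * cos u4)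
    (a4 : rb * sin t3 = c4 * sin u4) :
    ry ^ 2 + rb ^ 2 - 2 * ry * rb * cos (t2 + t3) =
      c3 ^ 2 + c4 ^ 2 - 2 * c3 * c4 * cos (u3 + u4) := by
  have e1 : ry * cos t2 = rx - c3 * cos u3 := by linarith
  have e3 : rb * cos t3 = rx - c4 * cos u4 := by linarith
  have f1 : ry ^ 2 = (rx - c3 * cos u3) ^ 2 + (c3 * sin u3) ^ 2 := by
    rw [← e1, ← a2]
    linear_combination (- ry ^ 2) * Real.sin_sq_add_cos_sq t2
  have f2 : rb ^ 2 = (rx - c4 * cos u4) ^ 2 + (c4 * sin u4) ^ 2 := by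
    rw [← e3, ← a4]
    linear_combination (- rb ^ 2) * Real.sin_sq_add_cos_sq t3
  have f3 : ry * rb * cos (t2 + t3) =
      (rx - c3 * cos u3) * (rx - c4 * cos u4) - (c3 * sin u3) * (c4 * sin u4) := by
    rw [← e1, ← a2, ← e3, ← a4, Real.cos_add]; ring
  have f4 : 2 * ry * rb * cos (t2 + t3) =
      2 * ((rx - c3 * cos u3) * (rx - c4 * cos u4) - (c3 * sin u3) * (c4 * sin u4)) := by
    rw [← f3]; ring
  rw [f1, f2, f4, Real.cos_add]
  linear_combination (c3 ^ 2) * Real.sin_sq_add_cos_sq u3 +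
    (c4 ^ 2) * Real.sin_sq_add_cos_sq u4

/-- the chord of two arcs with exterior angle `≥ 0` -/
theorem kxe_two_le {c3 c4 p3 p4 w : ℝ} (h3 : c3 = 2 * sin p3) (h4 : c4 = 2 * sin p4)
    (hp3 : 0 < p3) (hp4 : 0 < p4) (hp : p3 + p4 < π) (hw0 : 0 ≤ w) (hw : w ≤ π - (p3 + p4)) :
    c3 ^ 2 + c4 ^ 2 - 2 * c3 * c4 * cos w ≤ 4 * sin (p3 + p4) ^ 2 := by
  have hcos : cos (π - (p3 + p4)) ≤ cos w :=
    Real.cos_le_cos_of_nonneg_of_le_pi hw0 (by linarith) hw
  rw [Real.cos_pi_sub] at hcos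
  have s3 : 0 < sin p3 := Real.sin_pos_of_pos_of_lt_pi hp3 (by linarith)
  have s4 : 0 < sin p4 := Real.sin_pos_of_pos_of_lt_pi hp4 (by linarith)
  have h1 := mul_le_mul_of_nonneg_left hcos (mul_pos s3 s4).le
  have h2 : sin p3 ^ 2 + sin p4 ^ 2 + 2 * sin p3 * sin p4 * cos (p3 + p4) =
      sin (p3 + p4) ^ 2 := by
    rw [Real.sin_add, Real.cos_add]
    have a := Real.sin_sq_add_cos_sq p3
    have b := Real.sin_sq_add_cos_sq p4
    have ca : cos p3 ^ 2 = 1 - sin p3 ^ 2 := by linarith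
    have cb : cos p4 ^ 2 = 1 - sin p4 ^ 2 := by linarith
    ring_nf
    rw [ca, cb]
    ring
  rw [h3, h4]
  nlinarith

/-- a kink at `a`: the chord `by`, in coordinates -/
theorem kxe_kink_coord {ry rb Ra t1 t4 c1 c2 u1 u2 ub p s : ℝ}
    (a1 : Ra - ry * cos t1 = c2 * cos u2) (a2 : ry * sin t1 = c2 * sin u2)
    (b1 : rb - Ra * cos t4 = c1 * cos ub) (b2 : Ra * sin t4 = c1 * sin ub)
    (hu : u1 + ub + t4 = π) (hk : u1 + u2 + p + s = π)
    (h1 : c1 = 2 * sin p) (h2 : c2 = 2 * sin s) :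
    rb - ry * cos (t1 + t4) = 2 * sin (p + s) * cos (ub - s) ∧
    ry * sin (t1 + t4) = 2 * sin (p + s) * sin (ub - s) := by
  have e0 : u2 - t4 = ub - p - s := by linarith
  have e1 : ry * cos t1 = Ra - c2 * cos u2 := by linarith
  have f1 : rb - ry * cos (t1 + t4) = c1 * cos ub + c2 * cos (ub - p - s) := by
    have : ry * cos (t1 + t4) = (ry * cos t1) * cos t4 - (ry * sin t1) * sin t4 := by
      rw [Real.cos_add]; ring
    rw [this, e1, a2, ← e0, Real.cos_sub]
    linear_combination b1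
  have f2 : ry * sin (t1 + t4) = c1 * sin ub + c2 * sin (ub - p - s) := by
    have : ry * sin (t1 + t4) = (ry * sin t1) * cos t4 + (ry * cos t1) * sin t4 := by
      rw [Real.sin_add]; ring
    rw [this, e1, a2, ← e0, Real.sin_sub]
    linear_combination b2
  have w1 : ub = (ub - s) + s := by ring
  have w2 : ub - p - s = (ub - s) - p := by ring
  constructor
  · rw [f1, h1, h2, w2]
    nth_rewrite 1 [w1]
    rw [Real.cos_add (ub - s) s, Real.cos_sub (ub - s) p, Real.sin_add]
    ring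
  · rw [f2, h1, h2, w2]
    nth_rewrite 1 [w1]
    rw [Real.sin_add (ub - s) s, Real.sin_sub (ub - s) p, Real.sin_add]
    ring

/-- the arc `b, a, y` of a kink at `a` is one arc -/
theorem kxe_kink {Ra rx ry rb t1 t2 t3 t4 : ℝ} (hp : WPD Ra rx ry rb t1 t2 t3 t4)
    (ht : t1 + t4 < π) (hk : UU Ra ry t1 + UU Ra rb t4 = π)
    (hsum : hd Ra ry t1 + hd ry rx t2 + hd rx rb t3 + hd Ra rb t4 < π) :
    UU rb ry (t1 + t4) = UU rb Ra t4 ∧ ch rb ry (t1 + t4) < 2 := by
  have hpi := Real.pi_pos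
  obtain ⟨c0, c1, c2, c3, c4, c5, c6, c7, -⟩ :=
    TRI Ra ry t1 hp.Ra0 hp.Ry0 hp.t10 hp.t1p hp.pay
  obtain ⟨d0, d1, d2, d3, d4, d5, d6, d7, d8, -⟩ :=
    TRI Ra rb t4 hp.Ra0 hp.Rb0 hp.t40 hp.t4p hp.pab
  obtain ⟨g0, g1, g2, g3, g4, g5, g6, g7, -⟩ :=
    TRI rx ry t2 hp.Rx0 hp.Ry0 hp.t20 hp.t2p (by rw [kxe_chs]; exact hp.pyx)
  obtain ⟨h0, h1, h2, h3, h4, h5, h6, h7, -⟩ :=
    TRI rx rb t3 hp.Rx0 hp.Rb0 hp.t30 hp.t3p hp.pxb
  obtain ⟨m1, m2, m3, m4⟩ := tri_un (r := rb) hp.Ra0 hp.t40 hp.t4p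
  obtain ⟨v1, v2, v3, v4⟩ := tri_un (r := rb) (s := ry) (θ := t1 + t4) hp.Ry0
    (by linarith [hp.t10, hp.t40]) ht
  have v0 := tri_ch_pos (r := rb) (s := ry) (θ := t1 + t4) hp.Ry0
    (by linarith [hp.t10, hp.t40]) ht
  rw [kxe_chs rb Ra] at m3 m4
  set p := hd Ra rb t4 with hpd
  set s := hd Ra ry t1 with hsd
  have hk' : un Ra rb t4 + un Ra ry t1 + p + s = π := by
    have := hk
    unfold UU at this
    linarith
  obtain ⟨k1, k2⟩ := kxe_kink_coord (u1 := un Ra rb t4) c6 c7 m3 m4 d8 hk' d1 c1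
  set ub := un rb Ra t4 with hub
  have hsps : 0 < sin (p + s) := Real.sin_pos_of_pos_of_lt_pi (by linarith) (by linarith)
  set c := ch rb ry (t1 + t4) with hc
  set v := un rb ry (t1 + t4) with hv
  rw [k1] at v3
  rw [k2] at v4
  have hcc : c = 2 * sin (p + s) := by
    have e1 : c ^ 2 = (2 * sin (p + s)) ^ 2 := by
      have : c ^ 2 = (c * cos v) ^ 2 + (c * sin v) ^ 2 := by
        linear_combination (- c ^ 2) * Real.sin_sq_add_cos_sq v
      rw [this, ← v3, ← v4]
      linear_combination (4 * sin (p + s) ^ 2) * Real.sin_sq_add_cos_sq (ub - s)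
    exact (pow_left_inj₀ v0.le (by linarith) (by norm_num)).mp e1
  rw [hcc] at v3 v4
  have hne : (2 * sin (p + s)) ≠ 0 := by positivity
  have w3 := mul_left_cancel₀ hne v3
  have w4 := mul_left_cancel₀ hne v4
  have hsv : 0 < sin v := Real.sin_pos_of_pos_of_lt_pi v1 v2
  have hubs : 0 < ub - s := by
    by_contra hcon
    push Not at hcon
    have : sin (ub - s) ≤ 0 := Real.sin_nonpos_of_nonpos_of_neg_pi_le hcon (by linarith)
    linarith
  have hveq : ub - s = v :=
    Real.injOn_cos ⟨hubs.le, by linarith⟩ ⟨v1.le, v2.le⟩ w3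
  -- the sum of the two half arcs is less than `π / 2`
  have hps : p + s < π / 2 := by
    by_contra hcon
    push Not at hcon
    have hsym : hd ry rx t2 = hd rx ry t2 := kxe_hds _ _ _
    rw [hsym] at hsum
    have e1 := kxe_two g6 g7 h6 h7
    have hex := hp.ex
    unfold UU at hex
    have e2 := kxe_two_le (w := un rx ry t2 + un rx rb t3) g1 h1 g2 h2 (by linarith)
      (by linarith) (by linarith)
    have e3 : cos (t2 + t3) = cos (t1 + t4) := by
      have : t2 + t3 = 2 * π - (t1 + t4) := by linarith [hp.ts]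
      rw [this, Real.cos_two_pi_sub]
    have e4 := ch_sq rb ry (t1 + t4)
    rw [← hc] at e4
    have e5 : c ^ 2 ≤ 4 * sin (hd rx ry t2 + hd rx rb t3) ^ 2 := by
      have : c ^ 2 = ry ^ 2 + rb ^ 2 - 2 * ry * rb * cos (t2 + t3) := by
        rw [e4, e3]; ring
      rw [this, e1]
      exact e2
    have e6 : sin (hd rx ry t2 + hd rx rb t3) < sin (p + s) := by
      rw [← Real.sin_pi_sub (p + s)]
      exact Real.sin_lt_sin_of_lt_of_le_pi_div_two (by linarith) (by linarith) (by linarith)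
    have e7 : 0 < sin (hd rx ry t2 + hd rx rb t3) :=
      Real.sin_pos_of_pos_of_lt_pi (by linarith) (by linarith)
    rw [hcc] at e5
    have e8 := pow_lt_pow_left₀ e6 e7.le (two_ne_zero)
    have e9 : (2 * sin (p + s)) ^ 2 = 4 * sin (p + s) ^ 2 := by ring
    rw [e9] at e5
    linarith
  have hhd : hd rb ry (t1 + t4) = p + s := by
    unfold hd
    rw [← hc, hcc]
    have : 2 * sin (p + s) / 2 = sin (p + s) := by ring
    rw [this]
    exact Real.arcsin_sin (by linarith) hps.le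
  constructor
  · unfold UU
    rw [hhd, ← hv, ← hub, ← hveq, kxe_hds rb Ra, ← hpd]
    ring
  · rw [hcc]
    have : sin (p + s) < 1 := by
      have := Real.sin_lt_sin_of_lt_of_le_pi_div_two (x := p + s) (y := π / 2) (by linarith)
        le_rfl hps
      rwa [Real.sin_pi_div_two] at this
    linarith

/-- the perimeter of `q` is less than `2 π` -/
theorem kxe_hq {ra rx ry rb b1 b2 b3 : ℝ} (q : WQD ra rx ry rb b1 b2 b3) :
    h0 ra + h0 rb + hd ra rx b1 + hd rx ry b2 + hd ry rb b3 < π := by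
  have e1 := tri_sum q.ra0 q.rx0 q.b10 (by linarith [q.bs, q.b20, q.b30])
  have e2 := tri_sum q.rx0 q.ry0 q.b20 (by linarith [q.bs, q.b10, q.b30])
  have e3 := tri_sum q.ry0 q.rb0 q.b30 (by linarith [q.bs, q.b20, q.b10])
  have f0 := q.q0
  have f1 := q.qa
  have f2 := q.qx
  have f3 := q.qy
  have f4 := q.qb
  unfold UU at f1 f2 f3 f4
  rw [kxe_hds rx ra] at f2
  rw [kxe_hds ry rx] at f3
  rw [kxe_hds rb ry] at f4
  linarith

/-- chord angles increase with the opposite side -/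
theorem kxe_un_le {rb ra Ra t T : ℝ} (hb : 0 < rb) (ha : 0 < ra) (hA : 0 < Ra) (h : ra < Ra)
    (ht0 : 0 < t) (ht1 : t < π) (hT0 : 0 < T) (hT1 : T < π)
    (hc : ch rb ra t = ch rb Ra T) : un rb ra t ≤ un rb Ra T := by
  obtain ⟨a1, a2, a3, a4⟩ := tri_un (r := rb) ha ht0 ht1
  obtain ⟨b1, b2, b3, b4⟩ := tri_un (r := rb) hA hT0 hT1
  have c0 := tri_ch_pos (r := rb) ha ht0 ht1
  rw [← hc] at b3 b4
  by_contra hcon
  push Not at hcon
  have hcos : cos (un rb ra t) < cos (un rb Ra T) :=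
    Real.cos_lt_cos_of_nonneg_of_le_pi b1.le a2.le hcon
  set c := ch rb ra t
  set u := un rb ra t
  set v := un rb Ra T
  have e1 : ra ^ 2 = rb ^ 2 + c ^ 2 - 2 * rb * c * cos u := by
    have g1 : ra * cos t = rb - c * cos u := by linarith
    have : ra ^ 2 = (ra * cos t) ^ 2 + (ra * sin t) ^ 2 := by
      linear_combination (- ra ^ 2) * Real.sin_sq_add_cos_sq t
    rw [this, g1, a4]
    linear_combination (c ^ 2) * Real.sin_sq_add_cos_sq u
  have e2 : Ra ^ 2 = rb ^ 2 + c ^ 2 - 2 * rb * c * cos v := by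
    have g1 : Ra * cos T = rb - c * cos v := by linarith
    have : Ra ^ 2 = (Ra * cos T) ^ 2 + (Ra * sin T) ^ 2 := by
      linear_combination (- Ra ^ 2) * Real.sin_sq_add_cos_sq T
    rw [this, g1, b4]
    linear_combination (c ^ 2) * Real.sin_sq_add_cos_sq v
  have e3 := mul_lt_mul_of_pos_left hcos (mul_pos hb c0)
  have e4 : ra ^ 2 < Ra ^ 2 := pow_lt_pow_left₀ h ha.le (two_ne_zero)
  linarith

/-- no kink at `x` -/
theorem kxe_nox {U V Ta Ty Tb c : ℝ} (hU : 0 < U) (hV : 0 < V) (hUV : U + V < π)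
    (hTa : 0 < Ta)
    (h1 : (1 - c) * ((cos V + Ty * sin V) + (cos (π - V) + Tb * sin (π - V))) =
      (cos U + Ta * sin U) + (cos V + Ty * sin V))
    (h2 : (1 - c) * (-(sin V - Ty * cos V) + (sin (π - V) - Tb * cos (π - V))) =
      (sin U - Ta * cos U) - (sin V - Ty * cos V)) : False := by
  have hpi := Real.pi_pos
  rw [Real.cos_pi_sub, Real.sin_pi_sub] at h1 h2
  have e1 : (cos (U + V) + Ta * sin (U + V)) + 1 = 0 := by
    rw [Real.cos_add, Real.sin_add]
    linear_combination (- cos V) * h1 + sin V * h2 - Real.sin_sq_add_cos_sq V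
  have e2 : 0 < sin (U + V) := Real.sin_pos_of_pos_of_lt_pi (by linarith) hUV
  have e3 : -1 < cos (U + V) := by
    have := Real.cos_lt_cos_of_nonneg_of_le_pi (by linarith : 0 ≤ U + V) le_rfl hUV
    rwa [Real.cos_pi] at this
  have e4 := mul_pos hTa e2
  linarith

/-- a slack end kink with one slack rim edge `xb` is impossible -/
theorem KXE : ST_KXE := by
  intro ra rx ry rb Ra b1 b2 b3 t1 t2 t3 t4 w0a w0x w0y w0b way wyx wxb wab χa χx χy χb
    D W S hra hay hyx hxb hab
  have hpi := Real.pi_pos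
  have q := D.q
  have p := D.p
  have hbs := q.bs
  have hb1 := q.b10
  have hb2 := q.b20
  have hb3 := q.b30
  -- simple consequences
  obtain rfl : wxb = 0 := by
    by_contra hne
    exact absurd (W.cxb hne) hxb.ne
  obtain rfl := S.cy
  obtain rfl := S.cb
  have hca := S.c0
  have hca1 := S.c1
  obtain rfl : b2 = t2 := by
    have h1 : ch ry rx b2 ^ 2 = ch ry rx t2 ^ 2 := by rw [hyx]
    rw [ch_sq, ch_sq] at h1
    have h2 : 0 < ry * rx := mul_pos q.ry0 q.rx0
    have h3 : cos b2 = cos t2 := by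
      have : (ry * rx) * cos b2 = (ry * rx) * cos t2 := by linarith
      exact mul_left_cancel₀ h2.ne' this
    exact Real.injOn_cos ⟨q.b20.le, by linarith⟩ ⟨p.t20.le, p.t2p.le⟩ h3
  -- no kink at `x`
  have hx0 : χx = 0 := by
    by_contra hne
    have hkx := W.χxs hne
    have hP := W.PX
    have hQ := W.QX
    obtain ⟨f1, f2⟩ := kxe_omc (r := rx) (s := ra) (θ := b1) q.rx0 q.ra0 hb1 (by linarith)
      (by rw [kxe_chs]; exact q.cax2)
    obtain ⟨g1, g2⟩ := kxe_omc (r := rx) (s := ry) (θ := b2) q.rx0 q.ry0 hb2 (by linarith)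
      q.cxy2
    obtain ⟨h1, h2⟩ := kxe_omc (r := rx) (s := rb) (θ := t3) p.Rx0 p.Rb0 p.t30 p.t3p p.pxb
    obtain ⟨-, -, hT⟩ := kxe_tau (r := rx) (s := ra) (θ := b1) q.rx0 q.ra0 hb1 (by linarith)
      (by rw [kxe_chs]; exact q.cax2)
    obtain ⟨-, -, c2, -, c4, -⟩ := TRI rx ra b1 q.rx0 q.ra0 hb1 (by linarith)
      (by rw [kxe_chs]; exact q.cax2)
    obtain ⟨-, -, d2, -, d4, -⟩ := TRI rx ry b2 q.rx0 q.ry0 hb2 (by linarith) q.cxy2
    have hPr := congrArg Complex.re hP
    have hPi := congrArg Complex.im hP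
    have hQr := congrArg Complex.re hQ
    have hQi := congrArg Complex.im hQ
    simp only [Complex.add_re, Complex.sub_re, Complex.mul_re, Complex.add_im, Complex.sub_im,
      Complex.mul_im, Complex.ofReal_re, Complex.ofReal_im, Complex.one_re, Complex.one_im,
      kxe_e_re, kxe_e_im, Real.cos_neg, Real.sin_neg] at hPr hPi hQr hQi
    have hW : UU rx rb t3 = π - UU rx ry b2 := by linarith
    rw [hW] at h1 h2
    refine kxe_nox (U := UU rx ra b1) (V := UU rx ry b2) (Ta := TT rx ra b1)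
      (Ty := TT rx ry b2) (Tb := TT rx rb t3) (c := χx) ?_ ?_ q.qx hT ?_ ?_
    · unfold UU; linarith
    · unfold UU; linarith
    · rw [← f1, ← g1, ← h1]
      linear_combination hQr - hPr
    · rw [← f2, ← g2, ← h2]
      linear_combination hQi - hPi
  subst hx0
  -- the forces at `b`
  have htc0 : 0 < t1 + t4 := by linarith [p.t10, p.t40]
  have htc1 : t1 + t4 < π := S.t
  obtain ⟨kk1, kk2⟩ := kxe_kink p S.t S.k (by
    have h1 := D.pos
    have h2 := kxe_hq q
    linarith)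
  obtain ⟨f1, f2⟩ := kxe_omc (r := rb) (s := rx) (θ := t3) p.Rb0 p.Rx0 p.t30 p.t3p
    (by rw [kxe_chs]; exact p.pxb)
  obtain ⟨f3, f4, f5⟩ := kxe_tau (r := rb) (s := rx) (θ := t3) p.Rb0 p.Rx0 p.t30 p.t3p
    (by rw [kxe_chs]; exact p.pxb)
  obtain ⟨g1, g2⟩ := kxe_omc (r := rb) (s := ry) (θ := t1 + t4) p.Rb0 p.Ry0 htc0 htc1 kk2
  obtain ⟨g3, g4, g5⟩ := kxe_tau (r := rb) (s := ry) (θ := t1 + t4) p.Rb0 p.Ry0 htc0 htc1 kk2
  obtain ⟨h1, h2⟩ := kxe_omc (r := rb) (s := ra) (θ := b1 + b2 + b3) q.rb0 q.ra0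
    (by linarith) hbs (by rw [kxe_chs]; exact q.cab2)
  obtain ⟨h3, h4, h5⟩ := kxe_tau (r := rb) (s := ra) (θ := b1 + b2 + b3) q.rb0 q.ra0
    (by linarith) hbs (by rw [kxe_chs]; exact q.cab2)
  obtain ⟨m1, m2⟩ := kxe_omc (r := rb) (s := ry) (θ := b3) q.rb0 q.ry0 hb3 (by linarith)
    (by rw [kxe_chs]; exact q.cyb2)
  obtain ⟨m3, m4, m5⟩ := kxe_tau (r := rb) (s := ry) (θ := b3) q.rb0 q.ry0 hb3 (by linarith)
    (by rw [kxe_chs]; exact q.cyb2)
  have hcq : ch rb ra (b1 + b2 + b3) = ch rb Ra t4 := by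
    rw [kxe_chs rb ra, kxe_chs rb Ra]; exact hab
  have homc1 : omc rb ra (b1 + b2 + b3) = omc Ra rb t4 := by
    rw [kxe_omcs Ra rb]; unfold omc; rw [hcq]
  have homc2 : omc rb Ra t4 = omc Ra rb t4 := kxe_omcs _ _ _
  have hcos3 : cos (b2 + t3) = cos (t1 + t4) := by
    have : b2 + t3 = 2 * π - (t1 + t4) := by linarith [p.ts]
    rw [this, Real.cos_two_pi_sub]
  have hsin3 : sin (b2 + t3) = - sin (t1 + t4) := by
    have : b2 + t3 = 2 * π - (t1 + t4) := by linarith [p.ts]
    rw [this, Real.sin_two_pi_sub]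
  have homc3 : omc rb ry (b2 + t3) = omc rb ry (t1 + t4) := by
    unfold omc ch; rw [hcos3]
  have hP := W.PB
  have hQ := W.QB
  rw [S.ab] at hP hQ
  have hPr := congrArg Complex.re hP
  have hPi := congrArg Complex.im hP
  have hQr := congrArg Complex.re hQ
  have hQi := congrArg Complex.im hQ
  simp only [Complex.add_re, Complex.sub_re, Complex.mul_re, Complex.add_im, Complex.sub_im,
    Complex.mul_im, Complex.ofReal_re, Complex.ofReal_im, Complex.one_re, Complex.one_im,
    kxe_e_re, kxe_e_im, Real.cos_neg, Real.sin_neg, hcos3, hsin3, homc2, homc3]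
    at hPr hPi hQr hQi
  rw [← homc1] at hQr hQi
  set al := UU rb rx t3 with hal
  set xi := UU rb ry (t1 + t4) with hxi
  set xq := UU rb ra (b1 + b2 + b3) with hxq
  set eta := UU rb ry b3 with heta
  -- the three scalar equations
  have E2 : χa * (sin xi - TT rb ry (t1 + t4) * cos xi) = sin al - TT rb rx t3 * cos al := by
    rw [← f2, ← g2]
    linear_combination (-1 : ℝ) * hPi
  have E3 : (1 - χa) * (sin xq - TT rb ra (b1 + b2 + b3) * cos xq) =
      sin eta - TT rb ry b3 * cos eta := by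
    rw [← h2, ← m2]
    linear_combination (-1 : ℝ) * hQi
  have E1 : (cos al + TT rb rx t3 * sin al) +
      χa * (cos xi + TT rb ry (t1 + t4) * sin xi) +
      (1 - χa) * (cos xq + TT rb ra (b1 + b2 + b3) * sin xq) =
      1 / cos (h0 rb) + (cos eta + TT rb ry b3 * sin eta) := by
    rw [← f1, ← g1, ← h1, ← m1]
    linear_combination hQr - hPr
  -- angles
  obtain ⟨-, -, a2, a3, a4, a5, -⟩ := TRI rb rx t3 p.Rb0 p.Rx0 p.t30 p.t3p
    (by rw [kxe_chs]; exact p.pxb)
  obtain ⟨-, -, c2, c3, c4, c5, -⟩ := TRI rb ry (t1 + t4) p.Rb0 p.Ry0 htc0 htc1 kk2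
  obtain ⟨-, -, d2, d3, d4, d5, -⟩ := TRI rb ra (b1 + b2 + b3) q.rb0 q.ra0
    (by linarith) hbs (by rw [kxe_chs]; exact q.cab2)
  obtain ⟨-, -, e2, e3, e4, e5, -⟩ := TRI rb ry b3 q.rb0 q.ry0 hb3 (by linarith)
    (by rw [kxe_chs]; exact q.cyb2)
  have hal0 : hd rb rx t3 < al := by rw [hal]; unfold UU; linarith
  have hxi0 : 0 < xi := by rw [hxi]; unfold UU; linarith
  have hxq0 : 0 < xq := by rw [hxq]; unfold UU; linarith
  have heta0 : 0 < eta := by rw [heta]; unfold UU; linarith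
  have hxqe : xq < eta := q.z2.trans q.z3
  have hxqxi : xq ≤ xi := by
    rw [kk1, hxq]
    have h7 := kxe_un_le p.Rb0 q.ra0 p.Ra0 hra (by linarith) hbs p.t40 p.t4p hcq
    have h8 : hd rb ra (b1 + b2 + b3) = hd rb Ra t4 := by unfold hd; rw [hcq]
    unfold UU
    rw [h8]
    linarith
  have hxa : xi + al ≤ π := by
    have := p.eb
    rw [kk1]; linarith
  have hdb0 : 0 ≤ h0 rb := by
    unfold h0
    exact Real.arcsin_nonneg.mpr (by linarith [q.rb0])
  have hdbal : h0 rb < al := p.hbx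
  have hdbe : h0 rb < π - eta := by linarith [q.qb]
  -- `al ≤ π / 2`
  have hal2 : al ≤ π / 2 := by
    by_contra hcon
    push Not at hcon
    have i1 : cos al ≤ 0 :=
      Real.cos_nonpos_of_pi_div_two_le_of_le hcon.le (by linarith)
    have i2 : 0 ≤ cos xi := Real.cos_nonneg_of_mem_Icc ⟨by linarith, by linarith⟩
    have i3 : sin xi ≤ sin al := by
      rw [← Real.sin_pi_sub al]
      exact Real.sin_le_sin_of_le_of_le_pi_div_two (by linarith) (by linarith) (by linarith)
    have i4 : 0 ≤ TT rb ry (t1 + t4) * cos xi := mul_nonneg g5.le i2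
    have i5 : TT rb rx t3 * cos al ≤ 0 := mul_nonpos_of_nonneg_of_nonpos f5.le i1
    have i6 : χa * (sin xi - TT rb ry (t1 + t4) * cos xi) <
        1 * (sin xi - TT rb ry (t1 + t4) * cos xi) := mul_lt_mul_of_pos_right hca1 g4
    linarith
  -- `π / 2 < eta`
  have heta2 : π / 2 < eta := by
    by_contra hcon
    push Not at hcon
    have j1 : (1 - χa) * (sin xq - TT rb ra (b1 + b2 + b3) * cos xq) <
        1 * (sin xq - TT rb ra (b1 + b2 + b3) * cos xq) :=
      mul_lt_mul_of_pos_right (by linarith) h4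
    rcases le_or_gt (hd rb ra (b1 + b2 + b3)) (hd rb ry b3) with hc | hc
    · have j2 : xq - hd rb ra (b1 + b2 + b3) < eta - hd rb ry b3 := by
        rw [hxq, heta]; unfold UU; linarith [q.uz1, q.uz2]
      have j3 : sin (xq - hd rb ra (b1 + b2 + b3)) < sin (eta - hd rb ry b3) :=
        Real.sin_lt_sin_of_lt_of_le_pi_div_two (by rw [hxq]; unfold UU; linarith)
          (by linarith) j2
      have j4 : cos (hd rb ry b3) ≤ cos (hd rb ra (b1 + b2 + b3)) :=
        Real.cos_le_cos_of_nonneg_of_le_pi d2.le (by linarith) hc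
      have j5 : 0 < cos (hd rb ry b3) := Real.cos_pos_of_mem_Ioo ⟨by linarith, e3⟩
      have j6 : 0 < cos (hd rb ra (b1 + b2 + b3)) :=
        Real.cos_pos_of_mem_Ioo ⟨by linarith, d3⟩
      have j7 : 0 < sin (xq - hd rb ra (b1 + b2 + b3)) :=
        Real.sin_pos_of_pos_of_lt_pi (by rw [hxq]; unfold UU; linarith)
          (by rw [hxq]; unfold UU; linarith)
      have j8 : sin (xq - hd rb ra (b1 + b2 + b3)) / cos (hd rb ra (b1 + b2 + b3)) <
          sin (eta - hd rb ry b3) / cos (hd rb ry b3) := by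
        rw [div_lt_div_iff₀ j6 j5]
        calc sin (xq - hd rb ra (b1 + b2 + b3)) * cos (hd rb ry b3)
            ≤ sin (xq - hd rb ra (b1 + b2 + b3)) * cos (hd rb ra (b1 + b2 + b3)) :=
              mul_le_mul_of_nonneg_left j4 j7.le
          _ < _ := mul_lt_mul_of_pos_right j3 j6
      rw [← h3, ← m3] at j8
      linarith
    · have j2 : sin xq < sin eta :=
        Real.sin_lt_sin_of_lt_of_le_pi_div_two (by linarith) hcon hxqe
      have j3 : cos eta ≤ cos xq :=
        Real.cos_le_cos_of_nonneg_of_le_pi hxq0.le (by linarith) hxqe.le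
      have j4 : 0 ≤ cos eta := Real.cos_nonneg_of_mem_Icc ⟨by linarith, hcon⟩
      have j5 : TT rb ry b3 ≤ TT rb ra (b1 + b2 + b3) := by
        unfold TT
        exact (Real.tan_lt_tan_of_nonneg_of_lt_pi_div_two e2.le d3 hc).le
      have j6 : TT rb ry b3 * cos eta ≤ TT rb ra (b1 + b2 + b3) * cos xq :=
        mul_le_mul j5 j3 j4 h5.le
      linarith
  -- the equation in the frame of `eta`
  refine kxe_pure (db := h0 rb) (d := hd rb rx t3) (al := al) (xi := xi) (xq := xq)
    (eta := eta) (Ta := TT rb ra (b1 + b2 + b3)) (Tc := TT rb ry (t1 + t4)) (c := χa)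
    hdb0 a2.le hal0 hal2 a3 hdbal.le h5.le g5.le hxq0.le hxqe hxqxi hxa hdbe (by linarith)
    hca hca1 (by rw [E2, f3]) ?_
  have hT : tan (hd rb rx t3) = TT rb rx t3 := rfl
  rw [hT, Real.cos_add, Real.sin_add, Real.cos_sub xi, Real.sin_sub xi, Real.cos_sub eta,
    Real.sin_sub eta]
  have e9 : cos eta / cos (h0 rb) = cos eta * (1 / cos (h0 rb)) := by ring
  rw [e9]
  linear_combination (- cos eta) * E1 + (- sin eta) * (E2 + E3) -
    Real.sin_sq_add_cos_sq eta

end E5
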