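import Pool.Agent.Helper71.E5.Stmts

/-! MP_efd95c_co: row ANG. -/

set_option autoImplicit false

open Complex

noncomputable section

namespace E5

theorem e_norm (θ : ℝ) : ‖AX.e θ‖ = 1 := by
  unfold AX.e
  exact Complex.norm_exp_ofReal_mul_I θ

theorem e_add (s t : ℝ) : AX.e (s + t) = AX.e s * AX.e t := by
  unfold AX.e
  rw [← Complex.exp_add]
  congr 1
  push_cast
  ring

theorem e_re (θ : ℝ) : (AX.e θ).re = Real.cos θ := by
  unfold AX.e
  exact Complex.exp_ofReal_mul_I_re θ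

theorem e_im (θ : ℝ) : (AX.e θ).im = Real.sin θ := by
  unfold AX.e
  exact Complex.exp_ofReal_mul_I_im θ

theorem e_period (θ : ℝ) (z : ℤ) : AX.e (θ + 2 * Real.pi * z) = AX.e θ := by
  apply Complex.ext
  · rw [e_re, e_re, mul_comm (2 * Real.pi) (z : ℝ), Real.cos_add_int_mul_two_pi]
  · rw [e_im, e_im, mul_comm (2 * Real.pi) (z : ℝ), Real.sin_add_int_mul_two_pi]

theorem memT {n : ℕ} (c : Fin n → ℂ) (i : Fin n) (θ : ℝ) :
    θ ∈ AX.T 1 c i ↔ ∀ j, dist (c i + AX.e θ) (c j) ≤ 1 := by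
  unfold AX.T AX.K
  simp [Metric.mem_closedBall]

theorem memT_period {n : ℕ} (c : Fin n → ℂ) (i : Fin n) (θ : ℝ) (z : ℤ) :
    θ + 2 * Real.pi * z ∈ AX.T 1 c i ↔ θ ∈ AX.T 1 c i := by
  rw [memT, memT, e_period]

theorem sq_re (u d : ℂ) : ‖u - d‖ ^ 2 = ‖u‖ ^ 2 + ‖d‖ ^ 2 - 2 * (u * (starRingEnd ℂ) d).re := by
  rw [← Complex.normSq_eq_norm_sq, ← Complex.normSq_eq_norm_sq, ← Complex.normSq_eq_norm_sq,
    Complex.normSq_apply, Complex.normSq_apply, Complex.normSq_apply]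
  simp
  ring

/-- a direction of `T` has a large product with the differences of the centres -/
theorem T_re {n : ℕ} {c : Fin n → ℂ} {i : Fin n} {θ : ℝ} (h : θ ∈ AX.T 1 c i) (j : Fin n) :
    ‖c j - c i‖ ^ 2 ≤ 2 * (AX.e θ * (starRingEnd ℂ) (c j - c i)).re := by
  rw [memT] at h
  have h1 := h j
  rw [dist_eq_norm] at h1
  have e1 : c i + AX.e θ - c j = AX.e θ - (c j - c i) := by ring
  rw [e1] at h1
  have h2 := sq_re (AX.e θ) (c j - c i)
  rw [e_norm] at h2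
  have h3 : ‖AX.e θ - (c j - c i)‖ ^ 2 ≤ 1 := by
    nlinarith [norm_nonneg (AX.e θ - (c j - c i))]
  linarith

theorem re_le (u d : ℂ) : (u * (starRingEnd ℂ) d).re ≤ ‖u‖ * ‖d‖ := by
  refine (Complex.re_le_norm _).trans ?_
  rw [norm_mul, Complex.norm_conj]

theorem e_sum (s t : ℝ) : ‖AX.e s + AX.e t‖ ^ 2 = (2 * Real.cos ((t - s) / 2)) ^ 2 := by
  have h1 : Real.cos (t - s) = 2 * Real.cos ((t - s) / 2) ^ 2 - 1 := by
    rw [← Real.cos_two_mul]
    congr 1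
    ring
  have h2 := Real.cos_sub t s
  rw [← Complex.normSq_eq_norm_sq, Complex.normSq_apply]
  simp only [Complex.add_re, Complex.add_im, e_re, e_im]
  have h3 := Real.sin_sq_add_cos_sq s
  have h4 := Real.sin_sq_add_cos_sq t
  rw [h1] at h2
  linear_combination h3 + h4 - 2 * h2

/-- the arc of `T` and the half distance -/
theorem arc_le {n : ℕ} {c : Fin n → ℂ} {i j : Fin n} {s t : ℝ} (hs : s ∈ AX.T 1 c i)
    (ht : t ∈ AX.T 1 c i) (hst : s ≤ t) (hpi : t < s + Real.pi) (hij : c i ≠ c j) :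
    t + lg (c i) (c j) ≤ s + Real.pi := by
  set d := c j - c i with hd
  have hd0 : 0 < ‖d‖ := norm_pos_iff.mpr (sub_ne_zero.mpr (Ne.symm hij))
  have h1 := T_re hs j
  have h2 := T_re ht j
  rw [← hd] at h1 h2
  have h3 : ‖d‖ ^ 2 ≤ ‖AX.e s + AX.e t‖ * ‖d‖ := by
    have h4 := re_le (AX.e s + AX.e t) d
    rw [add_mul, Complex.add_re] at h4
    linarith
  have h5 : ‖d‖ ≤ ‖AX.e s + AX.e t‖ := by
    by_contra hcon
    push Not at hcon
    nlinarith
  have hc : 0 ≤ Real.cos ((t - s) / 2) := by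
    refine Real.cos_nonneg_of_mem_Icc ⟨?_, ?_⟩ <;> linarith [Real.pi_pos]
  have h6 : ‖AX.e s + AX.e t‖ = 2 * Real.cos ((t - s) / 2) := by
    have := e_sum s t
    exact (sq_eq_sq₀ (norm_nonneg _) (by linarith)).mp this
  rw [h6] at h5
  have hdl : lg (c i) (c j) = 2 * Real.arcsin (‖d‖ / 2) := by
    unfold lg AX.dl
    rw [dist_comm, dist_eq_norm, ← hd]
    norm_num
  rw [hdl]
  have h7 : ‖d‖ / 2 ≤ Real.cos ((t - s) / 2) := by linarith
  have h8 : Real.arcsin (‖d‖ / 2) ≤ Real.pi / 2 - (t - s) / 2 := by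
    have h9 : Real.cos ((t - s) / 2) = Real.sin (Real.pi / 2 - (t - s) / 2) := by
      rw [Real.sin_pi_div_two_sub]
    rw [h9] at h7
    refine (Real.monotone_arcsin h7).trans_eq ?_
    exact Real.arcsin_sin (by linarith [Real.pi_pos]) (by linarith [Real.pi_pos])
  linarith

theorem HD.a_mem {n : ℕ} {c : Fin n → ℂ} {M : ℕ} {g : ℤ → Fin n} {a b : ℤ → ℝ}
    (h : HD c M g a b) (k : ℤ) : a k ∈ AX.T 1 c (g k) :=
  (h.mem k (a k) le_rfl (by linarith [Real.pi_pos])).mpr (h.le k)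

theorem HD.b_mem {n : ℕ} {c : Fin n → ℂ} {M : ℕ} {g : ℤ → Fin n} {a b : ℤ → ℝ}
    (h : HD c M g a b) (k : ℤ) : b k ∈ AX.T 1 c (g k) :=
  (h.mem k (b k) (h.le k) (by linarith [Real.pi_pos, h.ltpi k])).mpr le_rfl

/-- **Row ANG.** -/
theorem ANG : ST_ANG := by
  intro n c M g a b h k j hj
  exact arc_le (h.a_mem k) (h.b_mem k) (h.le k) (h.ltpi k) (fun hc => hj (h.inj hc).symm)

end E5
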