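import Pool.Agent.Helper93.E5.ANG
import Pool.Agent.Helper71.E5.AXAll

/-! MP_efd95c_co: row HD, existence of hull data. -/

set_option autoImplicit false

open Complex

noncomputable section

namespace E5

theorem T_eq_of_K {n m : ℕ} {c : Fin n → ℂ} (g : Fin m → Fin n)
    (h : AX.K 1 (fun i => c (g i)) = AX.K 1 c) (i : Fin m) :
    AX.T 1 (fun i => c (g i)) i = AX.T 1 c (g i) := by
  unfold AX.T
  rw [h]

/-- no half circle in `T` -/
theorem T_pi {n : ℕ} {c : Fin n → ℂ} {i j : Fin n} (hij : c i ≠ c j) {s : ℝ}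
    (h1 : s ∈ AX.T 1 c i) (h2 : s + Real.pi ∈ AX.T 1 c i) : False := by
  have a1 := T_re h1 j
  have a2 := T_re h2 j
  have e1 : AX.e (s + Real.pi) = -AX.e s := by
    rw [e_add]
    have : AX.e Real.pi = -1 := by
      unfold AX.e
      exact Complex.exp_pi_mul_I
    rw [this]
    ring
  rw [e1, neg_mul, Complex.neg_re] at a2
  have hd : 0 < ‖c j - c i‖ := norm_pos_iff.mpr (sub_ne_zero.mpr (Ne.symm hij))
  nlinarith

/-- the end of an arc and the beginning of the next one are the same corner -/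
theorem corner_eq {n : ℕ} {c : Fin n → ℂ} {i j : Fin n} {b a' : ℝ} (hb : b ∈ AX.T 1 c i)
    (ha : a' ∈ AX.T 1 c j) (hs : b + lg (c i) (c j) = a') : c i + AX.e b = c j + AX.e a' := by
  set d := c j - c i with hd
  have h1 := T_re hb j
  have h2 := T_re ha i
  rw [← hd] at h1
  have e0 : c i - c j = -d := by rw [hd]; ring
  rw [e0, norm_neg, map_neg, mul_neg, Complex.neg_re] at h2
  have hd2 : ‖d‖ ≤ 2 := by
    have h3 := re_le (AX.e b) d
    rw [e_norm, one_mul] at h3
    by_contra hcon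
    push Not at hcon
    nlinarith
  set δ := AX.dl 1 (c i) (c j) with hδ
  have hdl : δ = Real.arcsin (‖d‖ / 2) := by
    rw [hδ]
    unfold AX.dl
    rw [dist_comm, dist_eq_norm, ← hd]
    norm_num
  have hsin : Real.sin δ = ‖d‖ / 2 := by
    rw [hdl, Real.sin_arcsin (by linarith [norm_nonneg d]) (by linarith)]
  have hs' : a' = b + 2 * δ := by rw [← hs]; rfl
  have hv : ‖AX.e b - AX.e a'‖ ^ 2 = ‖d‖ ^ 2 := by
    have h3 := Real.cos_sub a' b
    have h4 : Real.cos (a' - b) = 1 - 2 * Real.sin δ ^ 2 := by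
      have : a' - b = 2 * δ := by rw [hs']; ring
      rw [this, Real.cos_two_mul]
      have := Real.sin_sq_add_cos_sq δ
      linarith
    rw [h4, hsin] at h3
    rw [← Complex.normSq_eq_norm_sq, Complex.normSq_apply]
    simp only [Complex.sub_re, Complex.sub_im, e_re, e_im]
    have h5 := Real.sin_sq_add_cos_sq b
    have h6 := Real.sin_sq_add_cos_sq a'
    linear_combination h5 + h6 + 2 * h3
  have h7 := sq_re (AX.e b - AX.e a') d
  rw [hv, sub_mul, Complex.sub_re] at h7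
  have h8 : ‖AX.e b - AX.e a' - d‖ ^ 2 ≤ 0 := by linarith
  have h9 : ‖AX.e b - AX.e a' - d‖ = 0 := by nlinarith [norm_nonneg (AX.e b - AX.e a' - d)]
  rw [norm_eq_zero] at h9
  rw [hd] at h9
  linear_combination h9

theorem idx_lt {N : ℕ} (hN : 0 < N) (k : ℤ) : (k % (N : ℤ)).toNat < N := by
  have h1 : 0 ≤ k % (N : ℤ) := Int.emod_nonneg _ (by omega)
  have h2 : k % (N : ℤ) < N := Int.emod_lt_of_pos _ (by omega)
  omega

/-- **Row HD.** -/
theorem HDx : ST_HD := by
  classical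
  intro n c hn hinj hint
  have hKne : (AX.K 1 c).Nonempty := hint.mono interior_subset
  -- a subfamily with the same intersection
  obtain ⟨m, g1, hg1, -, hK1, hT1⟩ := axMIN n 1 c Finset.univ one_pos hKne (by
    unfold AX.K
    simp)
  have hg1' : Function.Injective g1 := fun x y h => hg1 (by simp only; rw [h])
  have hTg : ∀ i, (AX.T 1 c (g1 i)).Nonempty := by
    intro i
    rw [← T_eq_of_K g1 hK1 i]
    exact hT1 i
  -- two elements
  have hm : 2 ≤ m := by
    by_contra hcon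
    push Not at hcon
    have hcases : m = 0 ∨ m = 1 := by omega
    rcases hcases with rfl | rfl
    · have hu : AX.K 1 c = Set.univ := by
        rw [← hK1]
        unfold AX.K
        simp
      have : (c ⟨0, by omega⟩ + 2 : ℂ) ∈ AX.K 1 c := by rw [hu]; trivial
      unfold AX.K at this
      rw [Set.mem_iInter] at this
      have h2 := this ⟨0, by omega⟩
      rw [Metric.mem_closedBall, dist_eq_norm] at h2
      norm_num at h2
    · obtain ⟨j, hj⟩ : ∃ j : Fin n, j ≠ g1 0 := by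
        by_contra hall
        push Not at hall
        have h0 := hall ⟨0, by omega⟩
        have h1 := hall ⟨1, by omega⟩
        rw [← h1] at h0
        simp at h0
      have hsub : Metric.closedBall (c (g1 0)) 1 ⊆ Metric.closedBall (c j) 1 := by
        have e1 : AX.K 1 (fun i => c (g1 i)) = Metric.closedBall (c (g1 0)) 1 := by
          unfold AX.K
          ext x
          simp
        rw [← e1, hK1]
        exact Set.iInter_subset _ j
      -- two disks of the same size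
      have hne : c (g1 0) ≠ c j := fun h => hj (hinj h).symm
      have hmem : ∀ θ : ℝ, dist (c (g1 0) + AX.e θ) (c j) ≤ 1 := by
        intro θ
        have : c (g1 0) + AX.e θ ∈ Metric.closedBall (c (g1 0)) 1 := by
          rw [Metric.mem_closedBall, dist_eq_norm, add_sub_cancel_left, e_norm]
        exact Metric.mem_closedBall.mp (hsub this)
      have hT0 : ∀ θ : ℝ, θ ∈ AX.T 1 ![c (g1 0), c j] 0 := by
        intro θ
        rw [memT]
        intro i
        fin_cases i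
        · show dist (c (g1 0) + AX.e θ) (c (g1 0)) ≤ 1
          rw [dist_eq_norm, add_sub_cancel_left, e_norm]
        · exact hmem θ
      exact T_pi (c := ![c (g1 0), c j]) (i := 0) (j := 1) hne (hT0 0) (hT0 (0 + Real.pi))
  -- the touching indices
  set I : Finset (Fin n) := Finset.univ.filter (fun i => (AX.T 1 c i).Nonempty) with hI
  have hIc : 2 ≤ I.card := by
    have h1 : Finset.univ.image g1 ⊆ I := by
      intro i hi
      rw [Finset.mem_image] at hi
      obtain ⟨k, -, rfl⟩ := hi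
      rw [hI, Finset.mem_filter]
      exact ⟨Finset.mem_univ _, hTg k⟩
    have h2 := Finset.card_le_card h1
    rw [Finset.card_image_of_injective _ hg1', Finset.card_univ, Fintype.card_fin] at h2
    omega
  obtain ⟨N, hN⟩ : ∃ N, I.card = N + 2 := ⟨I.card - 2, by omega⟩
  set g0 : Fin (N + 2) → Fin n := fun k => I.orderEmbOfFin hN k with hg0
  have hg0i : Function.Injective g0 := fun x y h => (I.orderEmbOfFin hN).injective h
  have hg0m : ∀ k, (AX.T 1 c (g0 k)).Nonempty := by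
    intro k
    exact (Finset.mem_filter.mp (Finset.orderEmbOfFin_mem I hN k)).2
  have hg0s : ∀ i, (AX.T 1 c i).Nonempty → ∃ k, g0 k = i := by
    intro i hi
    have h1 : i ∈ I := by
      rw [hI, Finset.mem_filter]
      exact ⟨Finset.mem_univ _, hi⟩
    have h2 : i ∈ Set.range (I.orderEmbOfFin hN) := by
      rw [Finset.range_orderEmbOfFin]
      exact h1
    exact h2
  have hK0 : AX.K 1 (fun i => c (g0 i)) = AX.K 1 c := by
    apply Set.Subset.antisymm
    · intro x hx
      rw [← hK1]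
      unfold AX.K at hx ⊢
      rw [Set.mem_iInter] at hx ⊢
      intro i
      obtain ⟨k, hk⟩ := hg0s _ (hTg i)
      show x ∈ Metric.closedBall (c (g1 i)) 1
      rw [← hk]
      exact hx k
    · intro x hx
      unfold AX.K at hx ⊢
      rw [Set.mem_iInter] at hx ⊢
      intro i
      exact hx _
  have hT0 : ∀ k, AX.T 1 (fun i => c (g0 i)) k = AX.T 1 c (g0 k) := T_eq_of_K g0 hK0
  obtain ⟨σ, A, B, hAB, hT, hst, hlast⟩ := axHULL N 1 (fun i => c (g0 i)) one_pos
    (fun x y h => hg0i (hinj h)) (fun k => by rw [hT0]; exact hg0m k)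
  have hNpos : 0 < N + 2 := by omega
  set idx : ℤ → Fin (N + 2) := fun k => ⟨(k % ((N + 2 : ℕ) : ℤ)).toNat, idx_lt hNpos k⟩ with hidx
  set g : ℤ → Fin n := fun k => g0 (σ (idx k)) with hg
  set a : ℤ → ℝ := fun k => A (idx k) + 2 * Real.pi * ((k / ((N + 2 : ℕ) : ℤ) : ℤ) : ℝ) with ha
  set b : ℤ → ℝ := fun k => B (idx k) + 2 * Real.pi * ((k / ((N + 2 : ℕ) : ℤ) : ℤ) : ℝ) with hb
  have hNZ : ((N + 2 : ℕ) : ℤ) ≠ 0 := by omega
  have idx_add : ∀ k : ℤ, idx (k + ((N + 2 : ℕ) : ℤ)) = idx k := by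
    intro k
    simp only [hidx]
    congr 2
    rw [Int.add_emod_right]
  have div_add : ∀ k : ℤ, (k + ((N + 2 : ℕ) : ℤ)) / ((N + 2 : ℕ) : ℤ) =
      k / ((N + 2 : ℕ) : ℤ) + 1 := by
    intro k
    rw [Int.add_ediv_of_dvd_right (dvd_refl _), Int.ediv_self hNZ]
  have hIcc : ∀ k : Fin (N + 2), ∀ θ, A k ≤ θ → θ < A k + 2 * Real.pi →
      (θ ∈ AX.T 1 c (g0 (σ k)) ↔ θ ≤ B k) := by
    intro k θ h1 h2
    have h3 := hT k
    rw [hT0] at h3
    have h4 : θ ∈ AX.T 1 c (g0 (σ k)) ∩ Set.Ico (A k) (A k + 2 * Real.pi) ↔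
        θ ∈ Set.Icc (A k) (B k) := by rw [h3]
    constructor
    · intro h5
      exact (h4.mp ⟨h5, h1, h2⟩).2
    · intro h5
      exact (h4.mpr ⟨h1, h5⟩).1
  have hBlt : ∀ k, B k < A k + 2 * Real.pi := by
    intro k
    have h3 := hT k
    have h4 : B k ∈ Set.Icc (A k) (B k) := ⟨hAB k, le_rfl⟩
    rw [← h3] at h4
    exact h4.2.2
  have hAm : ∀ k, A k ∈ AX.T 1 c (g0 (σ k)) := fun k =>
    (hIcc k (A k) le_rfl (by linarith [Real.pi_pos])).mpr (hAB k)
  have hBm : ∀ k, B k ∈ AX.T 1 c (g0 (σ k)) := fun k =>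
    (hIcc k (B k) (hAB k) (hBlt k)).mpr le_rfl
  have hpi : ∀ k, B k < A k + Real.pi := by
    intro k
    by_contra hcon
    push Not at hcon
    have h1 : A k + Real.pi ∈ AX.T 1 c (g0 (σ k)) :=
      (hIcc k _ (by linarith [Real.pi_pos]) (by linarith [Real.pi_pos])).mpr hcon
    obtain ⟨j, hj⟩ : ∃ j : Fin (N + 2), j ≠ σ k := exists_ne (σ k)
    exact T_pi (i := g0 (σ k)) (j := g0 j) (fun h => hj (hg0i (hinj h)).symm) (hAm k) h1
  -- the next index
  have hstep : ∀ k : ℤ, b k + lg (c (g k)) (c (g (k + 1))) = a (k + 1) := by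
    intro k
    set r := k % ((N + 2 : ℕ) : ℤ) with hr
    have hr0 : 0 ≤ r := Int.emod_nonneg _ hNZ
    have hr1 : r < ((N + 2 : ℕ) : ℤ) := Int.emod_lt_of_pos _ (by omega)
    have hk : ((N + 2 : ℕ) : ℤ) * (k / ((N + 2 : ℕ) : ℤ)) + r = k := Int.mul_ediv_add_emod _ _
    by_cases hlt : r + 1 < ((N + 2 : ℕ) : ℤ)
    · have h1 : (k + 1) % ((N + 2 : ℕ) : ℤ) = r + 1 := by
        have : k + 1 = (r + 1) + ((N + 2 : ℕ) : ℤ) * (k / ((N + 2 : ℕ) : ℤ)) := by
          rw [← hk]
          rw [hk]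
          linarith
        rw [this, Int.add_mul_emod_self_left, Int.emod_eq_of_lt (by omega) hlt]
      have h2 : (k + 1) / ((N + 2 : ℕ) : ℤ) = k / ((N + 2 : ℕ) : ℤ) := by
        have : k + 1 = (r + 1) + ((N + 2 : ℕ) : ℤ) * (k / ((N + 2 : ℕ) : ℤ)) := by linarith
        rw [this, Int.add_mul_ediv_left _ _ hNZ, Int.ediv_eq_zero_of_lt (by omega) hlt, zero_add]
      obtain ⟨s, hs⟩ : ∃ s : Fin (N + 1), idx k = s.castSucc := by
        refine ⟨⟨r.toNat, by omega⟩, ?_⟩
        apply Fin.ext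
        rfl
      have hs1 : idx (k + 1) = s.succ := by
        apply Fin.ext
        have e1 : ((idx (k + 1) : Fin (N + 2)) : ℕ) = ((k + 1) % ((N + 2 : ℕ) : ℤ)).toNat := rfl
        have e2 : ((idx k : Fin (N + 2)) : ℕ) = r.toNat := rfl
        rw [hs] at e2
        rw [e1, h1, Fin.val_succ]
        have e3 : ((s.castSucc : Fin (N + 2)) : ℕ) = (s : ℕ) := rfl
        rw [e3] at e2
        omega
      have h3 := hst s
      show B (idx k) + 2 * Real.pi * ((k / ((N + 2 : ℕ) : ℤ) : ℤ) : ℝ) +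
        2 * AX.dl 1 (c (g0 (σ (idx k)))) (c (g0 (σ (idx (k + 1))))) =
        A (idx (k + 1)) + 2 * Real.pi * (((k + 1) / ((N + 2 : ℕ) : ℤ) : ℤ) : ℝ)
      rw [h2, hs, hs1]
      linarith
    · have hrl : r = ((N + 2 : ℕ) : ℤ) - 1 := by omega
      have hk1 : k + 1 = ((N + 2 : ℕ) : ℤ) * (k / ((N + 2 : ℕ) : ℤ) + 1) := by
        rw [mul_add, mul_one]
        linarith
      have h1 : (k + 1) % ((N + 2 : ℕ) : ℤ) = 0 := by
        rw [hk1, Int.mul_emod_right]
      have h2 : (k + 1) / ((N + 2 : ℕ) : ℤ) = k / ((N + 2 : ℕ) : ℤ) + 1 := by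
        rw [hk1, Int.mul_ediv_cancel_left _ hNZ]
      have hs : idx k = Fin.last (N + 1) := by
        apply Fin.ext
        show r.toNat = N + 1
        omega
      have hs1 : idx (k + 1) = 0 := by
        apply Fin.ext
        show ((k + 1) % ((N + 2 : ℕ) : ℤ)).toNat = 0
        rw [h1]
        rfl
      show B (idx k) + 2 * Real.pi * ((k / ((N + 2 : ℕ) : ℤ) : ℤ) : ℝ) +
        2 * AX.dl 1 (c (g0 (σ (idx k)))) (c (g0 (σ (idx (k + 1))))) =
        A (idx (k + 1)) + 2 * Real.pi * (((k + 1) / ((N + 2 : ℕ) : ℤ) : ℤ) : ℝ)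
      rw [h2, hs, hs1]
      push_cast
      linarith
  have ham : ∀ k, a k ∈ AX.T 1 c (g k) := fun k => (memT_period c _ _ _).mpr (hAm _)
  have hbm : ∀ k, b k ∈ AX.T 1 c (g k) := fun k => (memT_period c _ _ _).mpr (hBm _)
  refine ⟨N + 2, g, a, b, ⟨hinj, hint, by omega, ?_, ?_, ?_, ?_, ?_, ?_, ?_, ?_, hstep, ?_⟩⟩
  · intro k
    simp only [hg]
    rw [idx_add]
  · intro k l h
    have h1 : idx k = idx l := σ.injective (hg0i h)
    have h2 : (k % ((N + 2 : ℕ) : ℤ)).toNat = (l % ((N + 2 : ℕ) : ℤ)).toNat :=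
      congrArg Fin.val h1
    have h3 : 0 ≤ k % ((N + 2 : ℕ) : ℤ) := Int.emod_nonneg _ hNZ
    have h4 : 0 ≤ l % ((N + 2 : ℕ) : ℤ) := Int.emod_nonneg _ hNZ
    have h5 : k % ((N + 2 : ℕ) : ℤ) = l % ((N + 2 : ℕ) : ℤ) := by omega
    exact Int.ModEq.dvd h5
  · intro i hi
    obtain ⟨k, hk⟩ := hg0s i hi
    refine ⟨((σ.symm k : Fin (N + 2)) : ℕ), ?_⟩
    have h1 : idx (((σ.symm k : Fin (N + 2)) : ℕ) : ℤ) = σ.symm k := by
      apply Fin.ext
      show ((((σ.symm k : Fin (N + 2)) : ℕ) : ℤ) % ((N + 2 : ℕ) : ℤ)).toNat = _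
      rw [Int.emod_eq_of_lt (by omega) (by exact_mod_cast (σ.symm k).isLt)]
      rfl
    simp only [hg]
    rw [h1, Equiv.apply_symm_apply, hk]
  · intro k
    simp only [ha]
    rw [idx_add, div_add]
    push_cast
    ring
  · intro k
    simp only [hb]
    rw [idx_add, div_add]
    push_cast
    ring
  · intro k
    simp only [ha, hb]
    linarith [hAB (idx k)]
  · intro k
    simp only [ha, hb]
    linarith [hpi (idx k)]
  · intro k θ h1 h2
    have h3 := hIcc (idx k) (θ - 2 * Real.pi * ((k / ((N + 2 : ℕ) : ℤ) : ℤ) : ℝ))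
      (by simp only [ha] at h1; linarith) (by simp only [ha] at h2; linarith)
    have h4 := memT_period c (g k) (θ - 2 * Real.pi * ((k / ((N + 2 : ℕ) : ℤ) : ℤ) : ℝ))
      (k / ((N + 2 : ℕ) : ℤ))
    rw [sub_add_cancel] at h4
    rw [h4]
    refine h3.trans ?_
    simp only [hb]
    constructor <;> intro h <;> linarith
  · intro k
    exact corner_eq (hbm k) (ham (k + 1)) (hstep k)

end E5
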