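import Pool.Agent.Helper15.E5.VSheet

/-! Alexander N <= 5: rows N2form, M1, M2, M2s, K of the analytic part. -/

namespace E5

open Real

theorem N2form : ST_N2form := by
  intro e a b
  have ha : (0 : ℝ) < sqrt (1 + a ^ 2) := Real.sqrt_pos.mpr (by positivity)
  have hb : (0 : ℝ) < sqrt (1 + b ^ 2) := Real.sqrt_pos.mpr (by positivity)
  have h1 : e + arctan a + arctan b = e + (arctan a + arctan b) := by ring
  rw [h1, Real.cos_add e, Real.cos_add, Real.sin_add, Real.cos_arctan, Real.cos_arctan,
    Real.sin_arctan, Real.sin_arctan]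
  unfold N2
  field_simp
  ring

theorem hasDeriv_N2 (E x y h : ℝ) : HasDerivAt (fun h => N2 (E - h) (x + h) y)
    (2 * (x + h) * (1 - cos (E - h) + y * sin (E - h))) h := by
  have h1 : HasDerivAt (fun h : ℝ => E - h) (-1) h := by
    simpa using (hasDerivAt_id h).const_sub E
  have h2 : HasDerivAt (fun h : ℝ => x + h) 1 h := by
    simpa using (hasDerivAt_id h).const_add x
  have h3 := h1.cos
  have h4 := h1.sin
  have h5 := ((((hasDerivAt_const h (2 : ℝ)).sub (h3.const_mul 2)).add (h2.pow 2)).add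
    (hasDerivAt_const h (y ^ 2))).add (((h2.mul_const y).const_mul 2).mul h3)
  have h6 := h5.add (((h2.add_const y).const_mul 2).mul h4)
  refine (h6.congr_deriv ?_).congr_of_eventuallyEq ?_
  · push_cast
    ring
  · filter_upwards with t
    show N2 (E - t) (x + t) y = _
    unfold N2
    simp only [Pi.mul_apply, Pi.add_apply, Pi.pow_apply, Pi.sub_apply]
    ring

theorem M1 : ST_M1 := by
  intro E h x y hx hy hh hhE hE
  have key : MonotoneOn (fun h => N2 (E - h) (x + h) y) (Set.Icc 0 E) := by
    refine monotoneOn_of_deriv_nonneg (convex_Icc 0 E) ?_ ?_ ?_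
    · exact fun t _ => (hasDeriv_N2 E x y t).continuousAt.continuousWithinAt
    · exact fun t _ => (hasDeriv_N2 E x y t).differentiableAt.differentiableWithinAt
    · intro t ht
      rw [interior_Icc] at ht
      rw [(hasDeriv_N2 E x y t).deriv]
      have h1 : 0 ≤ sin (E - t) := Real.sin_nonneg_of_nonneg_of_le_pi (by linarith [ht.2])
        (by linarith [ht.1])
      have h2 : cos (E - t) ≤ 1 := Real.cos_le_one _
      have h3 : 0 ≤ y * sin (E - t) := mul_nonneg hy h1
      have h4 : 0 ≤ x + t := by linarith [ht.1]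
      have h5 : 0 ≤ 1 - cos (E - t) + y * sin (E - t) := by linarith
      positivity
  have h1 := key ⟨le_rfl, hh.trans hhE⟩ ⟨hh, hhE⟩ hh
  simpa using h1

theorem M2 : ST_M2 := by
  intro e e' x y he hee hx hy hs
  rw [N2form, N2form]
  have hx' : 0 ≤ arctan x := Real.arctan_nonneg.mpr hx
  have hy' : 0 ≤ arctan y := Real.arctan_nonneg.mpr hy
  have h1 : cos (e' + arctan x + arctan y) ≤ cos (e + arctan x + arctan y) :=
    Real.cos_le_cos_of_nonneg_of_le_pi (by linarith) hs (by linarith)
  have h2 : 0 ≤ sqrt (1 + x ^ 2) * sqrt (1 + y ^ 2) := by positivity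
  have h3 := mul_le_mul_of_nonneg_left h1 h2
  linarith

theorem M2s : ST_M2s := by
  intro e e' x y he hee hx hy hs
  rw [N2form, N2form]
  have hx' : 0 ≤ arctan x := Real.arctan_nonneg.mpr hx
  have hy' : 0 ≤ arctan y := Real.arctan_nonneg.mpr hy
  have h1 : cos (e' + arctan x + arctan y) < cos (e + arctan x + arctan y) :=
    Real.cos_lt_cos_of_nonneg_of_le_pi (by linarith) hs (by linarith)
  have h2 : 0 < sqrt (1 + x ^ 2) * sqrt (1 + y ^ 2) :=
    mul_pos (Real.sqrt_pos.mpr (by positivity)) (Real.sqrt_pos.mpr (by positivity))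
  have h3 := mul_lt_mul_of_pos_left h1 h2
  linarith

theorem K : ST_K := by
  intro e x y hx hy he hpi
  have h1 := M1 e e x y hx hy he le_rfl hpi
  rw [sub_self] at h1
  refine h1.trans_eq ?_
  unfold N2
  rw [Real.cos_zero, Real.sin_zero]
  ring

end E5
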